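import Mathlib

set_option autoImplicit false

/-!
# The positive square root of `A Aᴴ` depends continuously on `A`
-/

open Matrix
open scoped MatrixOrder ComplexOrder Matrix.Norms.L2Operator

namespace Pool.Agent.Helper43.EH

/-- A continuous square root of `A Aᴴ`. -/
theorem exists_sqrt (K : Type) [RCLike K] (r n : ℕ) :
    ∃ s : Matrix (Fin r) (Fin n) K → Matrix (Fin r) (Fin r) K, Continuous s ∧
      (∀ A, s A * (s A)ᴴ = A * Aᴴ) ∧ (∀ A, s (-A) = s A) ∧ (∀ A, (s A)ᴴ = s A) := by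
  have h0 : ∀ A : Matrix (Fin r) (Fin n) K, 0 ≤ A * Aᴴ := fun A =>
    nonneg_iff_posSemidef.2 (posSemidef_self_mul_conjTranspose A)
  have hc : Continuous fun A : Matrix (Fin r) (Fin n) K => A * Aᴴ :=
    continuous_id.matrix_mul continuous_id.matrix_conjTranspose
  have h1 : ∀ A : Matrix (Fin r) (Fin n) K, (CFC.sqrt (A * Aᴴ))ᴴ = CFC.sqrt (A * Aᴴ) := fun A =>
    (nonneg_iff_posSemidef.1 (CFC.sqrt_nonneg (A * Aᴴ))).isHermitian
  refine ⟨fun A => CFC.sqrt (A * Aᴴ), ?_, fun A => ?_, fun A => ?_, h1⟩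
  · have h2 : (fun A : Matrix (Fin r) (Fin n) K => CFC.sqrt (A * Aᴴ)) =
        fun A => cfc NNReal.sqrt (A * Aᴴ) := by
      funext A
      exact CFC.sqrt_eq_cfc
    rw [h2]
    let _i : NormedAlgebra ℝ (Matrix (Fin r) (Fin r) K) :=
      { (inferInstance : Algebra ℝ (Matrix (Fin r) (Fin r) K)) with
        norm_smul_le := fun c A => by
          have h3 : c • A = (c : K) • A := by
            ext i j
            rw [Matrix.smul_apply, Matrix.smul_apply, RCLike.real_smul_eq_coe_mul, smul_eq_mul]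
          rw [h3, norm_smul, RCLike.norm_ofReal, Real.norm_eq_abs] }
    exact Continuous.cfc_nnreal_of_mem_nhdsSet (s := Set.univ) NNReal.sqrt Filter.univ_mem hc h0
      NNReal.continuous_sqrt.continuousOn
  · show CFC.sqrt (A * Aᴴ) * (CFC.sqrt (A * Aᴴ))ᴴ = A * Aᴴ
    rw [h1, CFC.sqrt_mul_sqrt_self _ (h0 A)]
  · show CFC.sqrt (-A * (-A)ᴴ) = CFC.sqrt (A * Aᴴ)
    rw [conjTranspose_neg, Matrix.neg_mul, Matrix.mul_neg, neg_neg]

/-- The path from `P A Q₁` to `P s(A) Q₂`, where `s(A)` is the square root of `A Aᴴ`: the product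
with the conjugate transpose does not change, and the end is an even function of `A`. -/
theorem exists_path' (K : Type) [RCLike K] {r n a b : ℕ} (P : Matrix (Fin r) (Fin a) K)
    (Q₁ : Matrix (Fin b) (Fin n) K) (Q₂ : Matrix (Fin a) (Fin n) K) (h11 : Q₁ * Q₁ᴴ = 1)
    (h22 : Q₂ * Q₂ᴴ = 1) (h12 : Q₁ * Q₂ᴴ = 0) :
    ∃ g : ℝ → Matrix (Fin a) (Fin b) K → Matrix (Fin r) (Fin n) K,
      Continuous (fun z : ℝ × Matrix (Fin a) (Fin b) K => g z.1 z.2) ∧
      (∀ A, g 0 A = P * A * Q₁) ∧ (∀ A, g 1 (-A) = g 1 A) ∧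
      (∀ t A, g t A * (g t A)ᴴ = (P * A * Q₁) * (P * A * Q₁)ᴴ) ∧
      ∀ t A, ∀ Z : Matrix (Fin r) (Fin n) K, Q₁ * Zᴴ = 0 → Q₂ * Zᴴ = 0 → g t A * Zᴴ = 0 := by
  obtain ⟨s, hs, hs1, hs2, -⟩ := exists_sqrt K a b
  have h21 : Q₂ * Q₁ᴴ = 0 := by
    have h := congrArg conjTranspose h12
    rwa [conjTranspose_mul, conjTranspose_conjTranspose, conjTranspose_zero] at h
  set c : ℝ → K := fun t => ((Real.cos (t * (Real.pi / 2)) : ℝ) : K) with hc
  set d : ℝ → K := fun t => ((Real.sin (t * (Real.pi / 2)) : ℝ) : K) with hd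
  have hc1 : Continuous c := by
    rw [hc]
    fun_prop
  have hd1 : Continuous d := by
    rw [hd]
    fun_prop
  have hcs : ∀ t, star (c t) = c t := fun t => RCLike.conj_ofReal _
  have hds : ∀ t, star (d t) = d t := fun t => RCLike.conj_ofReal _
  have hcd : ∀ t, c t * c t + d t * d t = 1 := by
    intro t
    have h := Real.cos_sq_add_sin_sq (t * (Real.pi / 2))
    have h' := congrArg (fun x : ℝ => (x : K)) h
    simp only [RCLike.ofReal_add, RCLike.ofReal_pow, RCLike.ofReal_one] at h'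
    rw [← sq, ← sq]
    exact h'
  refine ⟨fun t A => c t • (P * A * Q₁) + d t • (P * s A * Q₂), ?_, fun A => ?_, fun A => ?_,
    fun t A => ?_, fun t A Z hZ₁ hZ₂ => ?_⟩
  · have h1 : Continuous fun z : ℝ × Matrix (Fin a) (Fin b) K => P * z.2 * Q₁ :=
      (continuous_const.matrix_mul continuous_snd).matrix_mul continuous_const
    have h2 : Continuous fun z : ℝ × Matrix (Fin a) (Fin b) K => P * s z.2 * Q₂ :=
      (continuous_const.matrix_mul (hs.comp continuous_snd)).matrix_mul continuous_const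
    exact ((hc1.comp continuous_fst).smul h1).add ((hd1.comp continuous_fst).smul h2)
  · show c 0 • (P * A * Q₁) + d 0 • (P * s A * Q₂) = P * A * Q₁
    have h1 : c 0 = 1 := by
      rw [hc]
      simp
    have h2 : d 0 = 0 := by
      rw [hd]
      simp
    rw [h1, h2, one_smul, zero_smul, add_zero]
  · show c 1 • (P * -A * Q₁) + d 1 • (P * s (-A) * Q₂) = c 1 • (P * A * Q₁) + d 1 • (P * s A * Q₂)
    have h1 : c 1 = 0 := by
      rw [hc]
      simp
    rw [h1, zero_smul, zero_smul, hs2]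
  · show (c t • (P * A * Q₁) + d t • (P * s A * Q₂)) *
      (c t • (P * A * Q₁) + d t • (P * s A * Q₂))ᴴ = (P * A * Q₁) * (P * A * Q₁)ᴴ
    have e1 : (P * A * Q₁) * (P * A * Q₁)ᴴ = P * (A * Aᴴ) * Pᴴ := by
      rw [conjTranspose_mul, conjTranspose_mul]
      calc P * A * Q₁ * (Q₁ᴴ * (Aᴴ * Pᴴ)) = P * A * (Q₁ * Q₁ᴴ) * (Aᴴ * Pᴴ) := by
            simp only [Matrix.mul_assoc]
        _ = P * (A * Aᴴ) * Pᴴ := by
            rw [h11]
            simp only [Matrix.mul_assoc, Matrix.one_mul]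
    have e2 : (P * s A * Q₂) * (P * s A * Q₂)ᴴ = P * (A * Aᴴ) * Pᴴ := by
      rw [conjTranspose_mul, conjTranspose_mul, ← hs1]
      calc P * s A * Q₂ * (Q₂ᴴ * ((s A)ᴴ * Pᴴ)) = P * s A * (Q₂ * Q₂ᴴ) * ((s A)ᴴ * Pᴴ) := by
            simp only [Matrix.mul_assoc]
        _ = P * (s A * (s A)ᴴ) * Pᴴ := by
            rw [h22]
            simp only [Matrix.mul_assoc, Matrix.one_mul]
    have e3 : (P * A * Q₁) * (P * s A * Q₂)ᴴ = 0 := by
      rw [conjTranspose_mul, conjTranspose_mul]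
      calc P * A * Q₁ * (Q₂ᴴ * ((s A)ᴴ * Pᴴ)) = P * A * (Q₁ * Q₂ᴴ) * ((s A)ᴴ * Pᴴ) := by
            simp only [Matrix.mul_assoc]
        _ = 0 := by
            rw [h12]
            simp only [Matrix.mul_zero, Matrix.zero_mul]
    have e4 : (P * s A * Q₂) * (P * A * Q₁)ᴴ = 0 := by
      have h := congrArg conjTranspose e3
      rwa [conjTranspose_mul, conjTranspose_conjTranspose, conjTranspose_zero] at h
    have e5 : ∀ (x y : K) (X Y : Matrix (Fin r) (Fin n) K),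
        x • X * (y • Y)ᴴ = (x * star y) • (X * Yᴴ) := by
      intro x y X Y
      rw [conjTranspose_smul, Matrix.smul_mul, Matrix.mul_smul, smul_smul]
    rw [conjTranspose_add, Matrix.add_mul, Matrix.mul_add, Matrix.mul_add, e5, e5, e5, e5,
      hcs, hds, e1, e2, e3, e4, smul_zero, smul_zero, add_zero, zero_add, ← add_smul,
      hcd, one_smul]
  · show (c t • (P * A * Q₁) + d t • (P * s A * Q₂)) * Zᴴ = 0
    rw [Matrix.add_mul, Matrix.smul_mul, Matrix.smul_mul, Matrix.mul_assoc (P * A), hZ₁,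
      Matrix.mul_assoc (P * s A), hZ₂, Matrix.mul_zero, Matrix.mul_zero, smul_zero, smul_zero,
      add_zero]

/-- The path from `P A Q₁` to `P s(A) Q₂`. -/
theorem exists_path (K : Type) [RCLike K] {r n a b : ℕ} (P : Matrix (Fin r) (Fin a) K)
    (Q₁ : Matrix (Fin b) (Fin n) K) (Q₂ : Matrix (Fin a) (Fin n) K) (h11 : Q₁ * Q₁ᴴ = 1)
    (h22 : Q₂ * Q₂ᴴ = 1) (h12 : Q₁ * Q₂ᴴ = 0) :
    ∃ g : ℝ → Matrix (Fin a) (Fin b) K → Matrix (Fin r) (Fin n) K,
      Continuous (fun z : ℝ × Matrix (Fin a) (Fin b) K => g z.1 z.2) ∧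
      (∀ A, g 0 A = P * A * Q₁) ∧ (∀ A, g 1 (-A) = g 1 A) ∧
      ∀ t A, g t A * (g t A)ᴴ = (P * A * Q₁) * (P * A * Q₁)ᴴ := by
  obtain ⟨g, h1, h2, h3, h4, -⟩ := exists_path' K P Q₁ Q₂ h11 h22 h12
  exact ⟨g, h1, h2, h3, h4⟩

end Pool.Agent.Helper43.EH
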