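import Pool.Agent.Helper20.EH.Corner
import Pool.Agent.Helper43.EH.Path

set_option autoImplicit false

/-!
# Subgroups of `U(r, n)` with a summand in a corner
-/

open NormedSpace Filter Topology Matrix Module Pool.Agent.Helper17.CKF Pool.Agent.Helper40.CK
open Pool.Agent.Helper29.CKP Pool.Agent.Helper20.CKP Pool.Agent.Helper20.EH
open scoped ComplexOrder

namespace Pool.Agent.Helper43.EH

/-- If `p_H` is a direct sum of `p₁` and `p₂`, and the inclusion of `p₁` can be made even by a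
homotopy which, after adding an element of `p₂`, does not change the products with the conjugate
transpose, then `p₁ = 0`. -/
theorem block_aux {K : Type} [RCLike K] {r n : ℕ} {H : Subgroup (UpqK K r n)}
    (hH : IsReductive (H.map (UpqK K r n).subtype)) (had : AdmitsCocompact H)
    (p₁ p₂ : Submodule ℝ (Matrix (Fin r) (Fin n) K))
    (hp : pSpace (H.map (UpqK K r n).subtype) = (p₁ ⊔ p₂).map (pcK K r n))
    (hd : p₁ ⊓ p₂ = ⊥) (G : ℝ → Matrix (Fin r) (Fin n) K → Matrix (Fin r) (Fin n) K)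
    (hG : Continuous fun z : ℝ × Matrix (Fin r) (Fin n) K => G z.1 z.2)
    (hG0 : ∀ X ∈ p₁, G 0 X = X) (hG1 : ∀ X ∈ p₁, G 1 (-X) = G 1 X)
    (hGm : ∀ t, ∀ X ∈ p₁, ∀ Z ∈ p₂, (G t X + Z) * (G t X + Z)ᴴ = (X + Z) * (X + Z)ᴴ ∨
      (G t X + Z)ᴴ * (G t X + Z) = (X + Z)ᴴ * (X + Z)) : p₁ = ⊥ := by
  by_contra h0
  have hpos : 0 < finrank ℝ p₁ := Nat.pos_of_ne_zero fun h => h0 (Submodule.finrank_eq_zero.1 h)
  set v₁ := finrank ℝ p₁ with hv₁
  set v₂ := finrank ℝ p₂ with hv₂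
  have hinj : Function.Injective (pcK K r n) := fun X Y h => pcK_inj h
  have hfin : finrank ℝ (pSpace (H.map (UpqK K r n).subtype)) = v₁ + v₂ := by
    rw [hp, ← (Submodule.equivMapOfInjective (pcK K r n) hinj (p₁ ⊔ p₂)).finrank_eq]
    have h1 := Submodule.finrank_sup_add_finrank_inf_eq p₁ p₂
    rw [hd, finrank_bot] at h1
    omega
  let e₁ : (Fin v₁ → ℝ) ≃ₗ[ℝ] p₁ := LinearEquiv.ofFinrankEq _ _ (by rw [Module.finrank_fin_fun])
  let e₂ : (Fin v₂ → ℝ) ≃ₗ[ℝ] p₂ := LinearEquiv.ofFinrankEq _ _ (by rw [Module.finrank_fin_fun])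
  let B₁ : (Fin (v₁ + v₂) → ℝ) → Matrix (Fin r) (Fin n) K := fun y =>
    (e₁ fun i => y (Fin.castAdd v₂ i)).1
  let B₂ : (Fin (v₁ + v₂) → ℝ) → Matrix (Fin r) (Fin n) K := fun y =>
    (e₂ fun i => y (Fin.natAdd v₁ i)).1
  have hB₁m : ∀ y, B₁ y ∈ p₁ := fun y => (e₁ _).2
  have hB₂m : ∀ y, B₂ y ∈ p₂ := fun y => (e₂ _).2
  have hB₁c : Continuous B₁ := by
    have h1 : Continuous e₁ := LinearMap.continuous_of_finiteDimensional e₁.toLinearMap
    refine continuous_subtype_val.comp (h1.comp ?_)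
    exact continuous_pi fun i => continuous_apply _
  have hB₂c : Continuous B₂ := by
    have h1 : Continuous e₂ := LinearMap.continuous_of_finiteDimensional e₂.toLinearMap
    refine continuous_subtype_val.comp (h1.comp ?_)
    exact continuous_pi fun i => continuous_apply _
  have hB₁neg : ∀ y, B₁ (-y) = -B₁ y := by
    intro y
    show (e₁ (-fun i => y (Fin.castAdd v₂ i))).1 = -(e₁ fun i => y (Fin.castAdd v₂ i)).1
    rw [map_neg]
    rfl
  have hB₂neg : ∀ y, B₂ (-y) = -B₂ y := by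
    intro y
    show (e₂ (-fun i => y (Fin.natAdd v₁ i))).1 = -(e₂ fun i => y (Fin.natAdd v₁ i)).1
    rw [map_neg]
    rfl
  have hB0 : ∀ y, y ≠ 0 → B₁ y + B₂ y ≠ 0 := by
    intro y hy h
    apply hy
    have h1 : B₁ y = -B₂ y := eq_neg_of_add_eq_zero_left h
    have h2 : B₁ y ∈ p₁ ⊓ p₂ := ⟨hB₁m y, by rw [h1]; exact p₂.neg_mem (hB₂m y)⟩
    rw [hd, Submodule.mem_bot] at h2
    have h3 : B₂ y = 0 := by
      rw [h2] at h1
      exact neg_eq_zero.1 h1.symm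
    have h4 : (fun i => y (Fin.castAdd v₂ i)) = 0 :=
      (LinearEquiv.map_eq_zero_iff e₁).1 (Subtype.ext h2)
    have h5 : (fun i => y (Fin.natAdd v₁ i)) = 0 :=
      (LinearEquiv.map_eq_zero_iff e₂).1 (Subtype.ext h3)
    funext i
    induction i using Fin.addCases with
    | left i => exact congrFun h4 i
    | right i => exact congrFun h5 i
  let S : Fin (v₁ + v₂) → Bool := Fin.addCases (fun _ => true) (fun _ => false)
  have hSl : ∀ i, S (Fin.castAdd v₂ i) = true := fun i => Fin.addCases_left i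
  have hSr : ∀ i, S (Fin.natAdd v₁ i) = false := fun i => Fin.addCases_right i
  have hcl : ∀ (y : Fin (v₁ + v₂) → ℝ) i, chg S y (Fin.castAdd v₂ i) = -y (Fin.castAdd v₂ i) := by
    intro y i
    show (if S (Fin.castAdd v₂ i) = true then _ else _) = _
    rw [if_pos (hSl i)]
  have hcr : ∀ (y : Fin (v₁ + v₂) → ℝ) i, chg S y (Fin.natAdd v₁ i) = y (Fin.natAdd v₁ i) := by
    intro y i
    show (if S (Fin.natAdd v₁ i) = true then _ else _) = _
    rw [if_neg (by rw [hSr]; exact Bool.false_ne_true)]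
  have hB₁S : ∀ y, B₁ (chg S y) = -B₁ y := by
    intro y
    rw [← hB₁neg]
    show (e₁ fun i => chg S y (Fin.castAdd v₂ i)).1 = (e₁ fun i => (-y) (Fin.castAdd v₂ i)).1
    congr 2
    funext i
    exact hcl y i
  have hB₂S : ∀ y, B₂ (chg S y) = B₂ y := by
    intro y
    show (e₂ fun i => chg S y (Fin.natAdd v₁ i)).1 = (e₂ fun i => y (Fin.natAdd v₁ i)).1
    congr 2
    funext i
    exact hcr y i
  have h1 := lt_of_path' hH had (v := v₁ + v₂) (fun t y => G t (B₁ y) + B₂ y) ?_ ?_ ?_ S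
    ⟨Fin.castAdd v₂ ⟨0, hpos⟩, hSl _⟩ ?_
  · rw [hfin] at h1
    exact lt_irrefl _ h1
  · refine Continuous.continuousOn ?_
    have h2 : Continuous fun z : ℝ × (Fin (v₁ + v₂) → ℝ) => (z.1, B₁ z.2) :=
      continuous_fst.prodMk (hB₁c.comp continuous_snd)
    exact (hG.comp h2).add (hB₂c.comp continuous_snd)
  · intro t _ y hy
    refine ⟨B₁ y + B₂ y, hB0 y hy, ?_, hGm t _ (hB₁m y) _ (hB₂m y)⟩
    rw [hp]
    exact Submodule.mem_map_of_mem (Submodule.add_mem_sup (hB₁m y) (hB₂m y))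
  · intro y _
    show G 0 (B₁ (-y)) + B₂ (-y) = -(G 0 (B₁ y) + B₂ y)
    rw [hG0 _ (hB₁m _), hG0 _ (hB₁m _), hB₁neg, hB₂neg, neg_add]
  · intro y _
    show G 1 (B₁ (chg S y)) + B₂ (chg S y) = G 1 (B₁ y) + B₂ y
    rw [hB₁S, hB₂S, hG1 _ (hB₁m y)]

/-- The product of a sum with its conjugate transpose, if the mixed terms are zero. -/
theorem sum_mul_star {K : Type} [RCLike K] {r n : ℕ} {X Z : Matrix (Fin r) (Fin n) K}
    (h : X * Zᴴ = 0) : (X + Z) * (X + Z)ᴴ = X * Xᴴ + Z * Zᴴ := by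
  have h' : Z * Xᴴ = 0 := by
    have := congrArg Matrix.conjTranspose h
    rwa [conjTranspose_mul, conjTranspose_conjTranspose, conjTranspose_zero] at this
  rw [conjTranspose_add, Matrix.mul_add, Matrix.add_mul, Matrix.add_mul, h, h', add_zero,
    zero_add]

/-- The path which makes a linear space in a corner even. -/
theorem path_right {K : Type} [RCLike K] {r n a b : ℕ}
    (U : Matrix (Fin r) (Fin a) K) (W : Matrix (Fin n) (Fin b) K) (hU : Uᴴ * U = 1)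
    (hW : Wᴴ * W = 1) (p₁ p₂ : Submodule ℝ (Matrix (Fin r) (Fin n) K))
    (h1 : ∀ X ∈ p₁, ∃ A : Matrix (Fin a) (Fin b) K, X = U * A * Wᴴ)
    (J : Matrix (Fin n) (Fin a) K) (hJ : Jᴴ * J = 1) (hWJ : Wᴴ * J = 0)
    (h2 : ∀ X ∈ p₂, X * W = 0 ∧ X * J = 0) :
    p₁ ⊓ p₂ = ⊥ ∧ ∃ G : ℝ → Matrix (Fin r) (Fin n) K → Matrix (Fin r) (Fin n) K,
      (Continuous fun z : ℝ × Matrix (Fin r) (Fin n) K => G z.1 z.2) ∧
      (∀ X ∈ p₁, G 0 X = X) ∧ (∀ X ∈ p₁, G 1 (-X) = G 1 X) ∧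
      ∀ t, ∀ X ∈ p₁, ∀ Z ∈ p₂, (G t X + Z) * (G t X + Z)ᴴ = (X + Z) * (X + Z)ᴴ := by
  have hX : ∀ X ∈ p₁, U * (Uᴴ * X * W) * Wᴴ = X := by
    intro X hX
    obtain ⟨A, rfl⟩ := h1 X hX
    calc U * (Uᴴ * (U * A * Wᴴ) * W) * Wᴴ = U * ((Uᴴ * U) * A * (Wᴴ * W)) * Wᴴ := by
          simp only [Matrix.mul_assoc]
      _ = U * A * Wᴴ := by rw [hU, hW, Matrix.one_mul, Matrix.mul_one]
  have hWZ : ∀ X ∈ p₁, ∀ Z ∈ p₂, X * Zᴴ = 0 := by
    intro X hX Z hZ
    obtain ⟨A, rfl⟩ := h1 X hX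
    have h3 : Wᴴ * Zᴴ = 0 := by
      rw [← conjTranspose_mul, (h2 Z hZ).1, conjTranspose_zero]
    rw [Matrix.mul_assoc, h3, Matrix.mul_zero]
  refine ⟨?_, ?_⟩
  · rw [eq_bot_iff]
    rintro X ⟨hX1, hX2⟩
    exact Matrix.self_mul_conjTranspose_eq_zero.1 (hWZ X hX1 X hX2)
  · obtain ⟨g, hg, hg0, hg1, hgm, hgz⟩ := exists_path' K U Wᴴ Jᴴ
      (by rw [conjTranspose_conjTranspose, hW]) (by rw [conjTranspose_conjTranspose, hJ])
      (by rw [conjTranspose_conjTranspose, hWJ])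
    refine ⟨fun t X => g t (Uᴴ * X * W), ?_, fun X hX1 => ?_, fun X hX1 => ?_,
      fun t X hX1 Z hZ => ?_⟩
    · have h3 : Continuous fun z : ℝ × Matrix (Fin r) (Fin n) K => (z.1, Uᴴ * z.2 * W) :=
        continuous_fst.prodMk
          ((continuous_const.matrix_mul continuous_snd).matrix_mul continuous_const)
      exact hg.comp h3
    · show g 0 (Uᴴ * X * W) = X
      rw [hg0, hX X hX1]
    · show g 1 (Uᴴ * -X * W) = g 1 (Uᴴ * X * W)
      rw [Matrix.mul_neg, Matrix.neg_mul, hg1]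
    · show (g t (Uᴴ * X * W) + Z) * (g t (Uᴴ * X * W) + Z)ᴴ = _
      have h3 : Wᴴ * Zᴴ = 0 := by
        rw [← conjTranspose_mul, (h2 Z hZ).1, conjTranspose_zero]
      have h4 : Jᴴ * Zᴴ = 0 := by
        rw [← conjTranspose_mul, (h2 Z hZ).2, conjTranspose_zero]
      rw [sum_mul_star (hgz t _ Z h3 h4), sum_mul_star (hWZ X hX1 Z hZ), hgm, hX X hX1]

/-- If `p_H` is the sum of `p₁`, which is in a corner, and of `p₂`, and there is enough room outside
of both, then `p₁ = 0`. -/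
theorem no_block {K : Type} [RCLike K] {r n a b : ℕ} {H : Subgroup (UpqK K r n)}
    (hH : IsReductive (H.map (UpqK K r n).subtype)) (had : AdmitsCocompact H)
    (U : Matrix (Fin r) (Fin a) K) (W : Matrix (Fin n) (Fin b) K) (hU : Uᴴ * U = 1)
    (hW : Wᴴ * W = 1) (p₁ p₂ : Submodule ℝ (Matrix (Fin r) (Fin n) K))
    (hp : pSpace (H.map (UpqK K r n).subtype) = (p₁ ⊔ p₂).map (pcK K r n))
    (h1 : ∀ X ∈ p₁, ∃ A : Matrix (Fin a) (Fin b) K, X = U * A * Wᴴ)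
    (h2 : (∃ J : Matrix (Fin n) (Fin a) K, Jᴴ * J = 1 ∧ Wᴴ * J = 0 ∧
        ∀ X ∈ p₂, X * W = 0 ∧ X * J = 0) ∨
      (∃ J : Matrix (Fin r) (Fin b) K, Jᴴ * J = 1 ∧ Uᴴ * J = 0 ∧
        ∀ X ∈ p₂, Xᴴ * U = 0 ∧ Xᴴ * J = 0)) : p₁ = ⊥ := by
  rcases h2 with ⟨J, hJ, hWJ, h2⟩ | ⟨J, hJ, hUJ, h2⟩
  · obtain ⟨hd, G, hG, hG0, hG1, hGm⟩ := path_right U W hU hW p₁ p₂ h1 J hJ hWJ h2
    exact block_aux hH had p₁ p₂ hp hd G hG hG0 hG1 fun t X hX Z hZ => Or.inl (hGm t X hX Z hZ)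
  · -- the conjugate transposes
    let σ : Matrix (Fin r) (Fin n) K →ₗ[ℝ] Matrix (Fin n) (Fin r) K :=
      { toFun := fun X => Xᴴ
        map_add' := fun X Y => conjTranspose_add X Y
        map_smul' := fun c X => by
          show (c • X)ᴴ = c • Xᴴ
          rw [conjTranspose_smul, star_trivial] }
    have hσ : ∀ X, σ X = Xᴴ := fun _ => rfl
    obtain ⟨hd, G, hG, hG0, hG1, hGm⟩ := path_right W U hW hU (p₁.map σ) (p₂.map σ)
      (by
        rintro X ⟨Y, hY, rfl⟩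
        obtain ⟨A, rfl⟩ := h1 Y hY
        refine ⟨Aᴴ, ?_⟩
        rw [hσ, conjTranspose_mul, conjTranspose_mul, conjTranspose_conjTranspose,
          Matrix.mul_assoc]) J hJ hUJ
      (by
        rintro X ⟨Y, hY, rfl⟩
        rw [hσ]
        exact h2 Y hY)
    refine block_aux hH had p₁ p₂ hp ?_ (fun t X => (G t Xᴴ)ᴴ) ?_ ?_ ?_ ?_
    · rw [eq_bot_iff]
      rintro X ⟨hX1, hX2⟩
      have h3 : σ X ∈ p₁.map σ ⊓ p₂.map σ :=
        ⟨Submodule.mem_map_of_mem hX1, Submodule.mem_map_of_mem hX2⟩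
      rw [hd, Submodule.mem_bot, hσ] at h3
      exact conjTranspose_eq_zero.1 h3
    · have h3 : Continuous fun z : ℝ × Matrix (Fin r) (Fin n) K => (z.1, z.2ᴴ) :=
        continuous_fst.prodMk continuous_snd.matrix_conjTranspose
      exact (hG.comp h3).matrix_conjTranspose
    · intro X hX
      show (G 0 Xᴴ)ᴴ = X
      rw [hG0 Xᴴ (Submodule.mem_map_of_mem (f := σ) hX), conjTranspose_conjTranspose]
    · intro X hX
      show (G 1 (-X)ᴴ)ᴴ = (G 1 Xᴴ)ᴴ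
      rw [conjTranspose_neg, hG1 Xᴴ (Submodule.mem_map_of_mem (f := σ) hX)]
    · intro t X hX Z hZ
      right
      have h3 := hGm t Xᴴ (Submodule.mem_map_of_mem (f := σ) hX) Zᴴ
        (Submodule.mem_map_of_mem (f := σ) hZ)
      show ((G t Xᴴ)ᴴ + Z)ᴴ * ((G t Xᴴ)ᴴ + Z) = (X + Z)ᴴ * (X + Z)
      rw [conjTranspose_add, conjTranspose_conjTranspose, conjTranspose_add]
      rw [conjTranspose_add, conjTranspose_conjTranspose, conjTranspose_add,
        conjTranspose_conjTranspose, conjTranspose_conjTranspose] at h3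
      exact h3

end Pool.Agent.Helper43.EH
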